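import Mathlib

set_option autoImplicit false

/-!
# A del Pezzo surface of degree one with two generalized Eckardt points

The surface `y² = x³ + (6 s² + 5 t²) x² + (5 s⁴ + 25 s² t² + 9 t⁴) x + 9 s² t⁴` over `ℂ` is a del Pezzo
surface of degree one. Each of the two points `(1 : 0 : 0 : 0)` and `(0 : 1 : 0 : 0)` lies on exactly
ten exceptional curves.
-/

namespace Pool.Agent.Results.MP_3c244b_ag.TwoEckardtPoints

open MvPolynomial

/-- The binary form of degree two with coefficients `p`. -/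
def form2 {k : Type} [Field k] (p : Fin 3 → k) (s t : k) : k := p 0 * s ^ 2 + p 1 * s * t + p 2 * t ^ 2

/-- The binary form of degree three with coefficients `q`. -/
def form3 {k : Type} [Field k] (q : Fin 4 → k) (s t : k) : k :=
  q 0 * s ^ 3 + q 1 * s ^ 2 * t + q 2 * s * t ^ 2 + q 3 * t ^ 3

/-- `f (s, t, x, y)` is the equation of a del Pezzo surface of degree one over the algebraically closed
field `k`: a smooth sextic in the weighted projective space `ℙ(1, 1, 2, 3)` with coordinates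
`s, t, x, y`. -/
def IsDelPezzoOne {k : Type} [Field k] (f : MvPolynomial (Fin 4) k) : Prop :=
  f.IsWeightedHomogeneous ![1, 1, 2, 3] 6 ∧
    ∀ v : Fin 4 → k, v ≠ 0 → eval v f = 0 → ∃ i, eval v (pderiv i f) ≠ 0

/-- `(p, q)` gives an exceptional curve of the surface `f = 0`: the curve
`{x = p (s, t), y = q (s, t)}` lies on the surface. -/
def IsExceptional {k : Type} [Field k] (f : MvPolynomial (Fin 4) k) (c : (Fin 3 → k) × (Fin 4 → k)) :
    Prop := ∀ s t : k, eval ![s, t, form2 c.1 s t, form3 c.2 s t] f = 0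

/-- The exceptional curve given by `(p, q)` passes through the point `v = (s : t : x : y)`. -/
def Through {k : Type} [Field k] (c : (Fin 3 → k) × (Fin 4 → k)) (v : Fin 4 → k) : Prop :=
  v 2 = form2 c.1 (v 0) (v 1) ∧ v 3 = form3 c.2 (v 0) (v 1)

/-- The point `v = (s : t : x : y)` of the surface `f = 0` is a generalized Eckardt point: it lies on
exactly `16` exceptional curves if the characteristic is two, exactly `12` if it is three, and exactly
`10` otherwise. -/
def IsEckardt {k : Type} [Field k] (f : MvPolynomial (Fin 4) k) (v : Fin 4 → k) : Prop :=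
  v ≠ 0 ∧ eval v f = 0 ∧ {c | IsExceptional f c ∧ Through c v}.ncard =
    if ringChar k = 2 then 16 else if ringChar k = 3 then 12 else 10

/-! ### The example -/

/-- The equation of the surface. -/
noncomputable def eqn : MvPolynomial (Fin 4) ℂ :=
  X 3 ^ 2 - X 2 ^ 3 - (C 6 * X 0 ^ 2 + C 5 * X 1 ^ 2) * X 2 ^ 2 -
    (C 5 * X 0 ^ 4 + C 25 * X 0 ^ 2 * X 1 ^ 2 + C 9 * X 1 ^ 4) * X 2 - C 9 * X 0 ^ 2 * X 1 ^ 4

lemma eval_eqn (v : Fin 4 → ℂ) : eval v eqn = v 3 ^ 2 - v 2 ^ 3 - (6 * v 0 ^ 2 + 5 * v 1 ^ 2) * v 2 ^ 2 -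
    (5 * v 0 ^ 4 + 25 * v 0 ^ 2 * v 1 ^ 2 + 9 * v 1 ^ 4) * v 2 - 9 * v 0 ^ 2 * v 1 ^ 4 := by
  simp [eqn]

lemma homog : eqn.IsWeightedHomogeneous ![1, 1, 2, 3] 6 := by
  have h0 : (X 0 : MvPolynomial (Fin 4) ℂ).IsWeightedHomogeneous ![1, 1, 2, 3] 1 :=
    isWeightedHomogeneous_X _ _ _
  have h1 : (X 1 : MvPolynomial (Fin 4) ℂ).IsWeightedHomogeneous ![1, 1, 2, 3] 1 :=
    isWeightedHomogeneous_X _ _ _
  have h2 : (X 2 : MvPolynomial (Fin 4) ℂ).IsWeightedHomogeneous ![1, 1, 2, 3] 2 :=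
    isWeightedHomogeneous_X _ _ _
  have h3 : (X 3 : MvPolynomial (Fin 4) ℂ).IsWeightedHomogeneous ![1, 1, 2, 3] 3 :=
    isWeightedHomogeneous_X _ _ _
  have hC : ∀ c : ℂ, (C c : MvPolynomial (Fin 4) ℂ).IsWeightedHomogeneous ![1, 1, 2, 3] 0 :=
    fun c => isWeightedHomogeneous_C _ _
  unfold eqn
  refine (((?_ : IsWeightedHomogeneous _ _ _).sub ?_).sub ?_ |>.sub ?_).sub ?_
  · exact h3.pow 2
  · exact h2.pow 3
  · exact ((((hC 6).mul (h0.pow 2)).add ((hC 5).mul (h1.pow 2))).mul (h2.pow 2))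
  · exact (((((hC 5).mul (h0.pow 4)).add (((hC 25).mul (h0.pow 2)).mul (h1.pow 2))).add
      ((hC 9).mul (h1.pow 4))).mul h2)
  · exact (((hC 9).mul (h0.pow 2)).mul (h1.pow 4))

lemma smooth (v : Fin 4 → ℂ) (hv : v ≠ 0) (h : eval v eqn = 0) :
    ∃ i, eval v (pderiv i eqn) ≠ 0 := by
  by_contra hcon
  push Not at hcon
  have d0 := hcon 0
  have d1 := hcon 1
  have d2 := hcon 2
  have d3 := hcon 3
  rw [eval_eqn] at h
  simp [eqn, pderiv_X] at d0 d1 d2 d3
  set s := v 0
  set t := v 1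
  set x := v 2
  set y := v 3
  rw [d3] at h
  have ex : 3 * x ^ 2 + 2 * (6 * s ^ 2 + 5 * t ^ 2) * x + (5 * s ^ 4 + 25 * s ^ 2 * t ^ 2 + 9 * t ^ 4) =
      0 := by linear_combination -d2
  have es : s * (6 * x ^ 2 + (10 * s ^ 2 + 25 * t ^ 2) * x + 9 * t ^ 4) = 0 := by
    linear_combination (-1 / 2) * d0
  have et : t * (5 * x ^ 2 + (25 * s ^ 2 + 18 * t ^ 2) * x + 18 * s ^ 2 * t ^ 2) = 0 := by
    linear_combination (-1 / 2) * d1
  apply hv
  by_cases hs : s = 0
  · by_cases ht : t = 0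
    · have hx : x = 0 := by
        rw [hs, ht] at h
        have : x ^ 3 = 0 := by linear_combination -h
        simpa using this
      funext i
      fin_cases i
      · exact hs
      · exact ht
      · exact hx
      · exact d3
    · exfalso
      rw [hs] at h ex
      have h1 : x * (x ^ 2 + 5 * t ^ 2 * x + 9 * t ^ 4) = 0 := by linear_combination -h
      rcases mul_eq_zero.1 h1 with h2 | h2
      · rw [h2] at ex
        have : t ^ 4 = 0 := by linear_combination (1 / 9) * ex
        exact ht (by simpa using this)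
      · have h3 : t ^ 2 * (5 * x + 18 * t ^ 2) = 0 := by linear_combination 3 * h2 - ex
        have h4 : 5 * x + 18 * t ^ 2 = 0 :=
          (mul_eq_zero.1 h3).resolve_left (pow_ne_zero 2 ht)
        have : t ^ 4 = 0 := by
          linear_combination (25 / 99) * h2 - ((5 * x + 7 * t ^ 2) / 99) * h4
        exact ht (by simpa using this)
  · by_cases ht : t = 0
    · exfalso
      rw [ht] at h ex
      have h1 : x * ((x + s ^ 2) * (x + 5 * s ^ 2)) = 0 := by linear_combination -h
      have hs2 : s ^ 2 ≠ 0 := pow_ne_zero 2 hs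
      rcases mul_eq_zero.1 h1 with h2 | h2
      · rw [h2] at ex
        have : s ^ 4 = 0 := by linear_combination (1 / 5) * ex
        exact hs (by simpa using this)
      · rcases mul_eq_zero.1 h2 with h3 | h3
        · have h4 : x = -s ^ 2 := by linear_combination h3
          rw [h4] at ex
          have : s ^ 4 = 0 := by linear_combination (-1 / 4) * ex
          exact hs (by simpa using this)
        · have h4 : x = -5 * s ^ 2 := by linear_combination h3
          rw [h4] at ex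
          have : s ^ 4 = 0 := by linear_combination (1 / 20) * ex
          exact hs (by simpa using this)
    · exfalso
      have es' := (mul_eq_zero.1 es).resolve_left hs
      have et' := (mul_eq_zero.1 et).resolve_left ht
      have : (t ^ 2) ^ 4 = 0 := by
        linear_combination ((2045 / 16524) * (s ^ 2) ^ 2 + (30263 / 82620) * s ^ 2 * t ^ 2 +
          (54457 / 809676) * s ^ 2 * x + (9467 / 89964) * (t ^ 2) ^ 2 +
          (12605 / 115668) * t ^ 2 * x) * es' +
          ((-2833 / 404838) * (s ^ 2) ^ 2 + (-26585 / 269892) * s ^ 2 * t ^ 2 +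
          (31583 / 674730) * s ^ 2 * x + (-41275 / 202419) * (t ^ 2) ^ 2 +
          (-2521 / 19278) * t ^ 2 * x) * et' +
          ((2833 / 112455) * s ^ 2 * t ^ 2 + (-4780 / 22491) * s ^ 2 * x +
          (529 / 89964) * (t ^ 2) ^ 2) * ex
      exact ht (by simpa using this)

/-- A polynomial of degree at most six without constant term which vanishes everywhere. -/
lemma coeffs (c1 c2 c3 c4 c5 c6 : ℂ)
    (h : ∀ t : ℂ, c1 * t + c2 * t ^ 2 + c3 * t ^ 3 + c4 * t ^ 4 + c5 * t ^ 5 + c6 * t ^ 6 = 0) :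
    c1 = 0 ∧ c2 = 0 ∧ c3 = 0 ∧ c4 = 0 ∧ c5 = 0 ∧ c6 = 0 := by
  have hp : (Polynomial.C c1 * Polynomial.X + Polynomial.C c2 * Polynomial.X ^ 2 +
      Polynomial.C c3 * Polynomial.X ^ 3 + Polynomial.C c4 * Polynomial.X ^ 4 +
      Polynomial.C c5 * Polynomial.X ^ 5 + Polynomial.C c6 * Polynomial.X ^ 6 :
        Polynomial ℂ) = 0 := by
    apply Polynomial.funext
    intro t
    simp
    exact h t
  have e := fun n => congrArg (fun p : Polynomial ℂ => p.coeff n) hp
  have e1 := e 1
  have e2 := e 2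
  have e3 := e 3
  have e4 := e 4
  have e5 := e 5
  have e6 := e 6
  simp [Polynomial.coeff_X_pow] at e1 e2 e3 e4 e5 e6
  exact ⟨e1, e2, e3, e4, e5, e6⟩

/-- Ten elements in five opposite pairs. -/
lemma ncard_ten (S : Set ((Fin 3 → ℂ) × (Fin 4 → ℂ))) (a : Fin 5 → Fin 3 → ℂ)
    (ha : Function.Injective a) (M : Fin 5 → Fin 4 → ℂ) (hM : ∀ i, M i ≠ 0)
    (hS : ∀ c, c ∈ S ↔ ∃ i, c.1 = a i ∧ (c.2 = M i ∨ c.2 = - M i)) : S.ncard = 10 := by
  have hinj : Function.Injective (fun x : Fin 5 × Bool =>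
      (a x.1, if x.2 then M x.1 else - M x.1)) := by
    rintro ⟨i, b⟩ ⟨j, b'⟩ h
    simp only [Prod.mk.injEq] at h
    obtain ⟨h1, h2⟩ := h
    have hij := ha h1
    subst hij
    have hne : M i ≠ - M i := fun h => hM i (by
      funext l
      have := congrFun h l
      simp only [Pi.neg_apply, Pi.zero_apply] at this ⊢
      linear_combination (1 / 2) * this)
    cases b <;> cases b' <;> simp at h2 ⊢
    · exact hne h2.symm
    · exact hne h2
  have hS' : S = Set.range (fun x : Fin 5 × Bool => (a x.1, if x.2 then M x.1 else - M x.1)) := by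
    ext c
    rw [hS]
    constructor
    · rintro ⟨i, h1, h2 | h2⟩
      · exact ⟨(i, true), by simp [Prod.ext_iff, h1, h2]⟩
      · exact ⟨(i, false), by simp [Prod.ext_iff, h1, h2]⟩
    · rintro ⟨⟨i, b⟩, rfl⟩
      cases b
      · exact ⟨i, rfl, Or.inr rfl⟩
      · exact ⟨i, rfl, Or.inl rfl⟩
  rw [hS', ← Set.image_univ, Set.ncard_image_of_injective _ hinj, Set.ncard_univ]
  simp

/-- the exceptional curves through `(1 : 0 : 0 : 0)` -/
lemma curves_one (p : Fin 3 → ℂ) (q : Fin 4 → ℂ) :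
    IsExceptional eqn (p, q) ∧ Through (p, q) ![1, 0, 0, 0] ↔
      p 0 = 0 ∧ p 1 = 0 ∧ q 0 = 0 ∧ q 1 ^ 2 = 5 * p 2 ∧ q 1 * q 2 = 0 ∧
      q 2 ^ 2 + 2 * q 1 * q 3 = 6 * p 2 ^ 2 + 25 * p 2 + 9 ∧ q 2 * q 3 = 0 ∧
      q 3 ^ 2 = p 2 ^ 3 + 5 * p 2 ^ 2 + 9 * p 2 := by
  unfold IsExceptional Through form2 form3
  simp only [eval_eqn]
  constructor
  · rintro ⟨h, h1, h2⟩
    simp at h1 h2
    have h3 : ∀ t : ℂ, (-5 * p 1) * t + (q 1 ^ 2 - 6 * p 1 ^ 2 - 5 * p 2) * t ^ 2 +
        (2 * q 1 * q 2 - p 1 ^ 3 - 12 * p 1 * p 2 - 25 * p 1) * t ^ 3 +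
        (q 2 ^ 2 + 2 * q 1 * q 3 - 3 * p 1 ^ 2 * p 2 - 6 * p 2 ^ 2 - 5 * p 1 ^ 2 - 25 * p 2 - 9) * t ^ 4 +
        (2 * q 2 * q 3 - 3 * p 1 * p 2 ^ 2 - 10 * p 1 * p 2 - 9 * p 1) * t ^ 5 +
        (q 3 ^ 2 - p 2 ^ 3 - 5 * p 2 ^ 2 - 9 * p 2) * t ^ 6 = 0 := by
      intro t
      have := h 1 t
      simp [← h1, ← h2] at this
      linear_combination this
    obtain ⟨e1, e2, e3, e4, e5, e6⟩ := coeffs _ _ _ _ _ _ h3
    have p1 : p 1 = 0 := by linear_combination (-1 / 5) * e1
    rw [p1] at e2 e3 e4 e5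
    refine ⟨h1.symm, p1, h2.symm, ?_, ?_, ?_, ?_, ?_⟩
    · linear_combination e2
    · linear_combination (1 / 2) * e3
    · linear_combination e4
    · linear_combination (1 / 2) * e5
    · linear_combination e6
  · rintro ⟨h0, h1, h2, e2, e3, e4, e5, e6⟩
    refine ⟨?_, ?_, ?_⟩
    · intro s t
      simp [h0, h1, h2]
      linear_combination (s ^ 4 * t ^ 2) * e2 + (2 * s ^ 3 * t ^ 3) * e3 + (s ^ 2 * t ^ 4) * e4 +
        (2 * s * t ^ 5) * e5 + t ^ 6 * e6
    · simp [h0]
    · simp [h2]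

/-- the exceptional curves through `(0 : 1 : 0 : 0)` -/
lemma curves_two (p : Fin 3 → ℂ) (q : Fin 4 → ℂ) :
    IsExceptional eqn (p, q) ∧ Through (p, q) ![0, 1, 0, 0] ↔
      p 2 = 0 ∧ p 1 = 0 ∧ q 3 = 0 ∧ q 2 ^ 2 = 9 * p 0 + 9 ∧ q 1 * q 2 = 0 ∧
      q 1 ^ 2 + 2 * q 0 * q 2 = 5 * p 0 ^ 2 + 25 * p 0 ∧ q 0 * q 1 = 0 ∧
      q 0 ^ 2 = p 0 ^ 3 + 6 * p 0 ^ 2 + 5 * p 0 := by
  unfold IsExceptional Through form2 form3
  simp only [eval_eqn]
  constructor
  · rintro ⟨h, h1, h2⟩
    simp at h1 h2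
    have h3 : ∀ t : ℂ, (-9 * p 1) * t + (q 2 ^ 2 - 5 * p 1 ^ 2 - 9 * p 0 - 9) * t ^ 2 +
        (2 * q 1 * q 2 - p 1 ^ 3 - 10 * p 1 * p 0 - 25 * p 1) * t ^ 3 +
        (q 1 ^ 2 + 2 * q 0 * q 2 - 3 * p 1 ^ 2 * p 0 - 5 * p 0 ^ 2 - 6 * p 1 ^ 2 - 25 * p 0) * t ^ 4 +
        (2 * q 0 * q 1 - 3 * p 1 * p 0 ^ 2 - 12 * p 1 * p 0 - 5 * p 1) * t ^ 5 +
        (q 0 ^ 2 - p 0 ^ 3 - 6 * p 0 ^ 2 - 5 * p 0) * t ^ 6 = 0 := by
      intro t
      have := h t 1
      simp [← h1, ← h2] at this
      linear_combination this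
    obtain ⟨e1, e2, e3, e4, e5, e6⟩ := coeffs _ _ _ _ _ _ h3
    have p1 : p 1 = 0 := by linear_combination (-1 / 9) * e1
    rw [p1] at e2 e3 e4 e5
    refine ⟨h1.symm, p1, h2.symm, ?_, ?_, ?_, ?_, ?_⟩
    · linear_combination e2
    · linear_combination (1 / 2) * e3
    · linear_combination e4
    · linear_combination (1 / 2) * e5
    · linear_combination e6
  · rintro ⟨h0, h1, h2, e2, e3, e4, e5, e6⟩
    refine ⟨?_, ?_, ?_⟩
    · intro s t
      simp [h0, h1, h2]
      linear_combination (t ^ 4 * s ^ 2) * e2 + (2 * t ^ 3 * s ^ 3) * e3 + (t ^ 2 * s ^ 4) * e4 +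
        (2 * t * s ^ 5) * e5 + s ^ 6 * e6
    · simp [h0]
    · simp [h2]

lemma sq_cases {a b : ℂ} (h : a ^ 2 = b ^ 2) : a = b ∨ a = -b := sq_eq_sq_iff_eq_or_eq_neg.1 h

lemma vec3 (p : Fin 3 → ℂ) (a b c : ℂ) : p = ![a, b, c] ↔ p 0 = a ∧ p 1 = b ∧ p 2 = c := by
  constructor
  · rintro rfl; simp
  · rintro ⟨h0, h1, h2⟩
    funext i; fin_cases i <;> assumption

lemma vec4 (p : Fin 4 → ℂ) (a b c d : ℂ) :
    p = ![a, b, c, d] ↔ p 0 = a ∧ p 1 = b ∧ p 2 = c ∧ p 3 = d := by
  constructor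
  · rintro rfl; simp
  · rintro ⟨h0, h1, h2, h3⟩
    funext i; fin_cases i <;> assumption

lemma neg4 (a b c d : ℂ) : -(![a, b, c, d] : Fin 4 → ℂ) = ![-a, -b, -c, -d] := by
  funext i; fin_cases i <;> rfl

lemma card_one : {c | IsExceptional eqn c ∧ Through c ![1, 0, 0, 0]}.ncard = 10 := by
  obtain ⟨w, hw⟩ := IsAlgClosed.exists_pow_nat_eq (-5 : ℂ) (n := 2) (by norm_num)
  have hw0 : w ≠ 0 := by rintro rfl; norm_num at hw
  refine ncard_ten _ (fun i => ![0, 0, (![0, -9, -1, -9 / 4, -1 / 4] : Fin 5 → ℂ) i]) ?_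
    ![![0, 0, 3, 0], ![0, 3 * w, 0, -9 * w], ![0, w, 0, w], ![0, 3 / 2 * w, 0, 9 / 8 * w],
      ![0, 1 / 2 * w, 0, -5 / 8 * w]] ?_ ?_
  · intro i j h
    have h1 := congrFun h 2
    simp only [Matrix.cons_val] at h1
    revert h1
    fin_cases i <;> fin_cases j <;> norm_num
  · intro i
    fin_cases i <;> intro h
    · have : (3 : ℂ) = 0 := congrFun h 2
      norm_num at this
    all_goals
      have := congrFun h 1
      simp [hw0] at this
  · rintro ⟨p, q⟩
    simp only [Set.mem_ofPred_eq]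
    rw [curves_one]
    constructor
    · rintro ⟨h0, h1, h2, e2, e3, e4, e5, e6⟩
      by_cases hq2 : q 2 = 0
      · rw [hq2] at e4
        have h4 : (p 2 + 9) * ((p 2 + 1) * ((p 2 + 9 / 4) * (p 2 + 1 / 4))) = 0 := by
          linear_combination (1 / 16) * (-(2 * q 1 * q 3 + (6 * p 2 ^ 2 + 25 * p 2 + 9)) * e4 +
            4 * q 3 ^ 2 * e2 + 20 * p 2 * e6)
        rcases mul_eq_zero.1 h4 with h | h
        · have hp : p 2 = -9 := by linear_combination h
          rw [hp] at e2 e4
          refine ⟨1, (vec3 _ _ _ _).2 ⟨h0, h1, by simpa using hp⟩, ?_⟩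
          have h5 : q 1 ^ 2 = (3 * w) ^ 2 := by linear_combination e2 - 9 * hw
          rcases sq_cases h5 with h6 | h6
          · left
            refine (vec4 _ _ _ _ _).2 ⟨h2, h6, hq2, ?_⟩
            rw [h6] at e4
            apply mul_left_cancel₀ hw0
            linear_combination (1 / 6) * e4 + 9 * hw
          · right
            rw [show (-(![![0, 0, 3, 0], ![0, 3 * w, 0, -9 * w], ![0, w, 0, w],
              ![0, 3 / 2 * w, 0, 9 / 8 * w], ![0, 1 / 2 * w, 0, -5 / 8 * w]] 1) : Fin 4 → ℂ) =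
              ![-0, -(3 * w), -0, -(-9 * w)] from neg4 _ _ _ _]
            refine (vec4 _ _ _ _ _).2 ⟨by simpa using h2, h6, by simpa using hq2, ?_⟩
            rw [h6] at e4
            apply mul_left_cancel₀ hw0
            linear_combination (-1 / 6) * e4 - 9 * hw
        · rcases mul_eq_zero.1 h with h | h
          · have hp : p 2 = -1 := by linear_combination h
            rw [hp] at e2 e4
            refine ⟨2, (vec3 _ _ _ _).2 ⟨h0, h1, by simpa using hp⟩, ?_⟩
            have h5 : q 1 ^ 2 = w ^ 2 := by linear_combination e2 - hw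
            rcases sq_cases h5 with h6 | h6
            · left
              refine (vec4 _ _ _ _ _).2 ⟨h2, h6, hq2, ?_⟩
              rw [h6] at e4
              apply mul_left_cancel₀ hw0
              linear_combination (1 / 2) * e4 - hw
            · right
              rw [show (-(![![0, 0, 3, 0], ![0, 3 * w, 0, -9 * w], ![0, w, 0, w],
                ![0, 3 / 2 * w, 0, 9 / 8 * w], ![0, 1 / 2 * w, 0, -5 / 8 * w]] 2) : Fin 4 → ℂ) =
                ![-0, -w, -0, -w] from neg4 _ _ _ _]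
              refine (vec4 _ _ _ _ _).2 ⟨by simpa using h2, h6, by simpa using hq2, ?_⟩
              rw [h6] at e4
              apply mul_left_cancel₀ hw0
              linear_combination (-1 / 2) * e4 + hw
          · rcases mul_eq_zero.1 h with h | h
            · have hp : p 2 = -9 / 4 := by linear_combination h
              rw [hp] at e2 e4
              refine ⟨3, (vec3 _ _ _ _).2 ⟨h0, h1, by simpa using hp⟩, ?_⟩
              have h5 : q 1 ^ 2 = (3 / 2 * w) ^ 2 := by linear_combination e2 - (9 / 4) * hw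
              rcases sq_cases h5 with h6 | h6
              · left
                refine (vec4 _ _ _ _ _).2 ⟨h2, h6, hq2, ?_⟩
                rw [h6] at e4
                apply mul_left_cancel₀ hw0
                linear_combination (1 / 3) * e4 - (9 / 8) * hw
              · right
                rw [show (-(![![0, 0, 3, 0], ![0, 3 * w, 0, -9 * w], ![0, w, 0, w],
                  ![0, 3 / 2 * w, 0, 9 / 8 * w], ![0, 1 / 2 * w, 0, -5 / 8 * w]] 3) : Fin 4 → ℂ) =
                  ![-0, -(3 / 2 * w), -0, -(9 / 8 * w)] from neg4 _ _ _ _]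
                refine (vec4 _ _ _ _ _).2 ⟨by simpa using h2, h6, by simpa using hq2, ?_⟩
                rw [h6] at e4
                apply mul_left_cancel₀ hw0
                linear_combination (-1 / 3) * e4 + (9 / 8) * hw
            · have hp : p 2 = -1 / 4 := by linear_combination h
              rw [hp] at e2 e4
              refine ⟨4, (vec3 _ _ _ _).2 ⟨h0, h1, by simpa using hp⟩, ?_⟩
              have h5 : q 1 ^ 2 = (1 / 2 * w) ^ 2 := by linear_combination e2 - (1 / 4) * hw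
              rcases sq_cases h5 with h6 | h6
              · left
                refine (vec4 _ _ _ _ _).2 ⟨h2, h6, hq2, ?_⟩
                rw [h6] at e4
                apply mul_left_cancel₀ hw0
                linear_combination e4 + (5 / 8) * hw
              · right
                rw [show (-(![![0, 0, 3, 0], ![0, 3 * w, 0, -9 * w], ![0, w, 0, w],
                  ![0, 3 / 2 * w, 0, 9 / 8 * w], ![0, 1 / 2 * w, 0, -5 / 8 * w]] 4) : Fin 4 → ℂ) =
                  ![-0, -(1 / 2 * w), -0, -(-5 / 8 * w)] from neg4 _ _ _ _]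
                refine (vec4 _ _ _ _ _).2 ⟨by simpa using h2, h6, by simpa using hq2, ?_⟩
                rw [h6] at e4
                apply mul_left_cancel₀ hw0
                linear_combination -e4 - (5 / 8) * hw
      · have hq1 : q 1 = 0 := (mul_eq_zero.1 e3).resolve_right hq2
        have hq3 : q 3 = 0 := (mul_eq_zero.1 e5).resolve_left hq2
        rw [hq1] at e2 e4
        have hp : p 2 = 0 := by linear_combination (-1 / 5) * e2
        rw [hp] at e4
        have h5 : q 2 ^ 2 = 3 ^ 2 := by linear_combination e4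
        refine ⟨0, (vec3 _ _ _ _).2 ⟨h0, h1, by simpa using hp⟩, ?_⟩
        rcases sq_cases h5 with h6 | h6
        · left
          exact (vec4 _ _ _ _ _).2 ⟨h2, hq1, h6, hq3⟩
        · right
          rw [show (-(![![0, 0, 3, 0], ![0, 3 * w, 0, -9 * w], ![0, w, 0, w],
            ![0, 3 / 2 * w, 0, 9 / 8 * w], ![0, 1 / 2 * w, 0, -5 / 8 * w]] 0) : Fin 4 → ℂ) =
            ![-0, -0, -3, -0] from neg4 _ _ _ _]
          exact (vec4 _ _ _ _ _).2 ⟨by simpa using h2, by simpa using hq1, h6, by simpa using hq3⟩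
    · rintro ⟨i, h1, h2⟩
      rw [vec3] at h1
      obtain ⟨a0, a1, a2⟩ := h1
      refine ⟨a0, a1, ?_⟩
      fin_cases i <;> simp at a2 h2 <;> rcases h2 with h2 | h2 <;> rw [vec4] at h2 <;>
        obtain ⟨b0, b1, b2, b3⟩ := h2 <;> rw [b0, b1, b2, b3, a2] <;>
        refine ⟨by simp, ?_, ?_, ?_, ?_, ?_⟩ <;> ring_nf <;> (try rw [hw]) <;> norm_num

lemma card_two : {c | IsExceptional eqn c ∧ Through c ![0, 1, 0, 0]}.ncard = 10 := by
  obtain ⟨w, hw⟩ := IsAlgClosed.exists_pow_nat_eq (-5 : ℂ) (n := 2) (by norm_num)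
  obtain ⟨u, hu⟩ := IsAlgClosed.exists_pow_nat_eq (-1 : ℂ) (n := 2) (by norm_num)
  obtain ⟨r, hr⟩ := IsAlgClosed.exists_pow_nat_eq (45 : ℂ) (n := 2) (by norm_num)
  obtain ⟨z, hz⟩ := IsAlgClosed.exists_pow_nat_eq (180 / 11 : ℂ) (n := 2) (by norm_num)
  have hw0 : w ≠ 0 := by rintro rfl; norm_num at hw
  have hu0 : u ≠ 0 := by rintro rfl; norm_num at hu
  have hr0 : r ≠ 0 := by rintro rfl; norm_num at hr
  have hz0 : z ≠ 0 := by rintro rfl; norm_num at hz
  refine ncard_ten _ (fun i => ![(![-1, 0, -5, 4, 9 / 11] : Fin 5 → ℂ) i, 0, 0]) ?_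
    ![![0, 2 * w, 0, 0], ![0, 0, 3, 0], ![0, 0, 6 * u, 0], ![2 * r, 0, r, 0],
      ![8 / 11 * z, 0, z, 0]] ?_ ?_
  · intro i j h
    have h1 := congrFun h 0
    simp only [Matrix.cons_val] at h1
    revert h1
    fin_cases i <;> fin_cases j <;> norm_num
  · intro i
    fin_cases i <;> intro h
    · have := congrFun h 1
      simp [hw0] at this
    · have : (3 : ℂ) = 0 := congrFun h 2
      norm_num at this
    · have := congrFun h 2
      simp [hu0] at this
    · have := congrFun h 2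
      simp [hr0] at this
    · have := congrFun h 2
      simp [hz0] at this
  · rintro ⟨p, q⟩
    simp only [Set.mem_ofPred_eq]
    rw [curves_two]
    constructor
    · rintro ⟨h0, h1, h2, e2, e3, e4, e5, e6⟩
      by_cases hq1 : q 1 = 0
      · rw [hq1] at e4
        have h4 : p 0 * ((p 0 + 5) * ((p 0 - 4) * (p 0 - 9 / 11))) = 0 := by
          linear_combination (1 / 11) * ((2 * q 0 * q 2 + (5 * p 0 ^ 2 + 25 * p 0)) * e4 -
            4 * q 0 ^ 2 * e2 - 36 * (p 0 + 1) * e6)
        rcases mul_eq_zero.1 h4 with h | h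
        · rw [h] at e2 e6
          have hq0 : q 0 = 0 := by
            have : q 0 ^ 2 = 0 := by linear_combination e6
            simpa using this
          have h5 : q 2 ^ 2 = 3 ^ 2 := by linear_combination e2
          refine ⟨1, (vec3 _ _ _ _).2 ⟨h, h1, h0⟩, ?_⟩
          rcases sq_cases h5 with h6 | h6
          · left
            exact (vec4 _ _ _ _ _).2 ⟨hq0, hq1, h6, h2⟩
          · right
            rw [show (-(![![0, 2 * w, 0, 0], ![0, 0, 3, 0], ![0, 0, 6 * u, 0], ![2 * r, 0, r, 0],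
              ![8 / 11 * z, 0, z, 0]] 1) : Fin 4 → ℂ) = ![-0, -0, -3, -0] from neg4 _ _ _ _]
            exact (vec4 _ _ _ _ _).2 ⟨by simpa using hq0, by simpa using hq1, h6, by simpa using h2⟩
        · rcases mul_eq_zero.1 h with h | h
          · have hp : p 0 = -5 := by linear_combination h
            rw [hp] at e2 e6
            have hq0 : q 0 = 0 := by
              have : q 0 ^ 2 = 0 := by linear_combination e6
              simpa using this
            have h5 : q 2 ^ 2 = (6 * u) ^ 2 := by linear_combination e2 - 36 * hu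
            refine ⟨2, (vec3 _ _ _ _).2 ⟨hp, h1, h0⟩, ?_⟩
            rcases sq_cases h5 with h6 | h6
            · left
              exact (vec4 _ _ _ _ _).2 ⟨hq0, hq1, h6, h2⟩
            · right
              rw [show (-(![![0, 2 * w, 0, 0], ![0, 0, 3, 0], ![0, 0, 6 * u, 0], ![2 * r, 0, r, 0],
                ![8 / 11 * z, 0, z, 0]] 2) : Fin 4 → ℂ) = ![-0, -0, -(6 * u), -0] from neg4 _ _ _ _]
              exact (vec4 _ _ _ _ _).2
                ⟨by simpa using hq0, by simpa using hq1, h6, by simpa using h2⟩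
          · rcases mul_eq_zero.1 h with h | h
            · have hp : p 0 = 4 := by linear_combination h
              rw [hp] at e2 e4
              have h5 : q 2 ^ 2 = r ^ 2 := by linear_combination e2 - hr
              refine ⟨3, (vec3 _ _ _ _).2 ⟨hp, h1, h0⟩, ?_⟩
              rcases sq_cases h5 with h6 | h6
              · left
                refine (vec4 _ _ _ _ _).2 ⟨?_, hq1, h6, h2⟩
                rw [h6] at e4
                apply mul_left_cancel₀ hr0
                linear_combination (1 / 2) * e4 - 2 * hr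
              · right
                rw [show (-(![![0, 2 * w, 0, 0], ![0, 0, 3, 0], ![0, 0, 6 * u, 0],
                  ![2 * r, 0, r, 0], ![8 / 11 * z, 0, z, 0]] 3) : Fin 4 → ℂ) =
                  ![-(2 * r), -0, -r, -0] from neg4 _ _ _ _]
                refine (vec4 _ _ _ _ _).2 ⟨?_, by simpa using hq1, h6, by simpa using h2⟩
                rw [h6] at e4
                apply mul_left_cancel₀ hr0
                linear_combination (-1 / 2) * e4 + 2 * hr
            · have hp : p 0 = 9 / 11 := by linear_combination h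
              rw [hp] at e2 e4
              have h5 : q 2 ^ 2 = z ^ 2 := by linear_combination e2 - hz
              refine ⟨4, (vec3 _ _ _ _).2 ⟨hp, h1, h0⟩, ?_⟩
              rcases sq_cases h5 with h6 | h6
              · left
                refine (vec4 _ _ _ _ _).2 ⟨?_, hq1, h6, h2⟩
                rw [h6] at e4
                apply mul_left_cancel₀ hz0
                linear_combination (1 / 2) * e4 - (8 / 11) * hz
              · right
                rw [show (-(![![0, 2 * w, 0, 0], ![0, 0, 3, 0], ![0, 0, 6 * u, 0],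
                  ![2 * r, 0, r, 0], ![8 / 11 * z, 0, z, 0]] 4) : Fin 4 → ℂ) =
                  ![-(8 / 11 * z), -0, -z, -0] from neg4 _ _ _ _]
                refine (vec4 _ _ _ _ _).2 ⟨?_, by simpa using hq1, h6, by simpa using h2⟩
                rw [h6] at e4
                apply mul_left_cancel₀ hz0
                linear_combination (-1 / 2) * e4 + (8 / 11) * hz
      · have hq2 : q 2 = 0 := (mul_eq_zero.1 e3).resolve_left hq1
        have hq0 : q 0 = 0 := (mul_eq_zero.1 e5).resolve_right hq1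
        rw [hq2] at e2 e4
        have hp : p 0 = -1 := by linear_combination (-1 / 9) * e2
        rw [hp] at e4
        have h5 : q 1 ^ 2 = (2 * w) ^ 2 := by linear_combination e4 - 4 * hw
        refine ⟨0, (vec3 _ _ _ _).2 ⟨hp, h1, h0⟩, ?_⟩
        rcases sq_cases h5 with h6 | h6
        · left
          exact (vec4 _ _ _ _ _).2 ⟨hq0, h6, hq2, h2⟩
        · right
          rw [show (-(![![0, 2 * w, 0, 0], ![0, 0, 3, 0], ![0, 0, 6 * u, 0], ![2 * r, 0, r, 0],
            ![8 / 11 * z, 0, z, 0]] 0) : Fin 4 → ℂ) = ![-0, -(2 * w), -0, -0] from neg4 _ _ _ _]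
          exact (vec4 _ _ _ _ _).2 ⟨by simpa using hq0, h6, by simpa using hq2, by simpa using h2⟩
    · rintro ⟨i, h1, h2⟩
      rw [vec3] at h1
      obtain ⟨a0, a1, a2⟩ := h1
      refine ⟨a2, a1, ?_⟩
      fin_cases i <;> simp at a0 h2 <;> rcases h2 with h2 | h2 <;> rw [vec4] at h2 <;>
        obtain ⟨b0, b1, b2, b3⟩ := h2 <;> rw [b0, b1, b2, b3, a0] <;>
        refine ⟨by simp, ?_, ?_, ?_, ?_, ?_⟩ <;> ring_nf <;>
        (try first | rw [hw] | rw [hu] | rw [hr] | rw [hz]) <;> norm_num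

/-- There is a del Pezzo surface of degree one over the complex numbers with at least two generalized
Eckardt points, which lie on different anticanonical curves. -/
theorem result : ∃ f : MvPolynomial (Fin 4) ℂ, IsDelPezzoOne f ∧
    ∃ v w : Fin 4 → ℂ, IsEckardt f v ∧ IsEckardt f w ∧ v 0 * w 1 ≠ v 1 * w 0 := by
  have hc : ringChar ℂ = 0 := ringChar.eq_zero
  refine ⟨eqn, ⟨homog, smooth⟩, ![1, 0, 0, 0], ![0, 1, 0, 0], ⟨?_, ?_, ?_⟩, ⟨?_, ?_, ?_⟩, ?_⟩
  · intro h
    have := congrFun h 0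
    simp at this
  · rw [eval_eqn]; simp
  · rw [card_one, hc]; norm_num
  · intro h
    have := congrFun h 1
    simp at this
  · rw [eval_eqn]; simp
  · rw [card_two, hc]; norm_num
  · simp

end Pool.Agent.Results.MP_3c244b_ag.TwoEckardtPoints
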